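import Pool.Agent.T9h36.Both

set_option autoImplicit false

/-!
# CLIQUE by monotone circuits with monotone advice and antitone oracles

Consider the following generous model of computation for a property of graphs with `n` vertices.
First `R` monotone circuits (AND and OR gates, no NOT gates) are evaluated on the graph.
Depending on their `R` values in an ARBITRARY way, a monotone circuit is chosen that computes the
answer, one for each of the `2 ^ R` possible values (non-uniformly, there is no bound on the number
of different circuits).  The chosen circuit may read, besides the edge variables, the values of `t`
ARBITRARY antitone properties of the graph, whose complexity is not bounded in any way.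

Let `N = n (n - 1) / 2` be the number of variables.  With `t = N` oracles, namely the negated
variables, and no advice the model is that of arbitrary Boolean circuits, so that a superpolynomial
lower bound would separate NP from P/poly.  With `R = N` advice bits, namely the variables
themselves, the model computes everything.  The theorem says that fewer than `N / polylog N` advice
bits and oracles together do not help enough to decide in polynomial size whether a graph has a
clique of size `k`, for instance with `k` half the number of vertices.  The case `R = t = 0` is the
theorem of Razborov.

Method: the clique problem contains the disjunction of `n ^ 2 / polylog n` disjoint copies of a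
block function of polylogarithmically many variables whose monotone complexity is still
superpolynomial in `n` (library `Pool.Agent.T9h16`).  Fill the blocks one after the other with
inputs on which the block function is 0.  The set of advice bits which are 1 can only grow and the
set of oracles which answer 1 can only shrink, so that there is a block for which no such filling
changes any of them.  In this block the present values of the advice and of the oracles can be
frozen: the block function is the disjunction of the circuit chosen by the present advice, with the
present answers of the oracles, and of the advice circuits whose present value is 0.
-/

namespace Pool.Agent.Results.MP_0a1b52_lc.AdviceAndOracles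

open Pool.Agent.T9h36

/-- There is a constant `K` such that the following holds for all `n, k, R, t, S`.  Let
`H_1, ..., H_R` be monotone circuits on the edge variables of graphs with `n` vertices, let
`O_1, ..., O_t` be arbitrary antitone properties of these graphs, and for every subset `v` of
`{1, ..., R}` let `D_v` be a monotone circuit on the edge variables and the answers of the `t`
oracles.  Suppose that the sizes of `H_1, ..., H_R, D_v` add up to at most `S` for every `v`, and
that for every graph `G`, with `v = {i | H_i accepts G}`, the circuit `D_v` with the answers of the
oracles on `G` decides whether `G` has a clique with at least `k` vertices.  If
`k ≥ K (log (S + 1) + 1) ^ 3`, then `(n - k) ^ 2 ≤ K (R + t + 1) (log (S + 1) + 1) ^ 7`. -/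
theorem result :
    ∃ K : ℕ, ∀ (n k R t S : ℕ) (H : Fin R → OracleCircuit n 0)
      (D : Set (Fin R) → OracleCircuit n t) (O : Fin t → SimpleGraph (Fin n) → Prop),
      (∀ j G G', G ≤ G' → O j G' → O j G) →
      (∀ v, ∑ i, (H i).size + (D v).size ≤ S) →
      (∀ G : SimpleGraph (Fin n), (D {i | (H i).Accepts G ∅}).Accepts G {j | O j G} ↔
        ∃ c : Finset (Fin n), G.IsClique (c : Set (Fin n)) ∧ k ≤ c.card) →
      K * (Nat.log 2 (S + 1) + 1) ^ 3 ≤ k →
      (n - k) ^ 2 ≤ K * (R + t + 1) * (Nat.log 2 (S + 1) + 1) ^ 7 :=
  ⟨2000000, fun n k R t S H D O hO hS hcl hk => both_main n k R t S H D hS O hO hcl hk⟩

end Pool.Agent.Results.MP_0a1b52_lc.AdviceAndOracles
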